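import Pool.Agent.helper73.AD.Basic

/-!
KB: Hessian of a log-sum-exp (project ad).
-/

namespace Pool.Agent.helper73.AD

open scoped BigOperators Topology

variable {J : Type} [Fintype J] [DecidableEq J]

omit [DecidableEq J] in
/-- derivative of the first derivative along a line -/
theorem KB_line1 {f : PS J → ℝ} {z : PS J} (hf : ContDiffAt ℝ 2 f z) (x y : PS J) :
    HasDerivAt (fun s : ℝ => fderiv ℝ f (z + s • x) y) (hs f z x y) 0 := by
  have h1 : ContDiffAt ℝ 1 (fun u => fderiv ℝ f u) z :=
    hf.fderiv_right (m := 1) (by norm_num)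
  have h2 : HasFDerivAt (fun u => fderiv ℝ f u) (fderiv ℝ (fun u => fderiv ℝ f u) z) z :=
    (h1.differentiableAt (by norm_num)).hasFDerivAt
  have h3 : HasDerivAt (fun s : ℝ => z + s • x) x 0 := by
    have := ((hasDerivAt_id (0 : ℝ)).smul_const x).const_add z
    simpa using this
  have h4 : HasFDerivAt (fun u => fderiv ℝ f u) (fderiv ℝ (fun u => fderiv ℝ f u) z)
      (z + (0 : ℝ) • x) := by simpa using h2
  have h5 := h4.comp_hasDerivAt (0 : ℝ) h3
  have h6 := h5.clm_apply (hasDerivAt_const (0 : ℝ) y)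
  simpa [hs] using h6

omit [DecidableEq J] in
/-- derivative along a line at any point where the function is differentiable -/
theorem KB_line0 {f : PS J → ℝ} {z x : PS J} {s : ℝ} (hf : DifferentiableAt ℝ f (z + s • x)) :
    HasDerivAt (fun s : ℝ => f (z + s • x)) (fderiv ℝ f (z + s • x) x) s := by
  have h3 : HasDerivAt (fun s : ℝ => z + s • x) x s := by
    have := ((hasDerivAt_id s).smul_const x).const_add z
    simpa using this
  exact hf.hasFDerivAt.comp_hasDerivAt s h3

theorem KB : KB_stmt := by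
  intro J ι _ _ _ _ L z hL x
  have hev : ∀ᶠ s : ℝ in 𝓝 0, ∀ i, DifferentiableAt ℝ (L i) (z + s • x) := by
    have h1 : ∀ i, ∀ᶠ u in 𝓝 z, DifferentiableAt ℝ (L i) u := fun i => by
      have := (hL i).eventually (by simp)
      filter_upwards [this] with u hu
      exact hu.differentiableAt (by norm_num)
    have h2 : ∀ᶠ u in 𝓝 z, ∀ i, DifferentiableAt ℝ (L i) u := Filter.eventually_all.mpr h1
    have h3 : Filter.Tendsto (fun s : ℝ => z + s • x) (𝓝 0) (𝓝 z) := by
      have : Continuous (fun s : ℝ => z + s • x) := by fun_prop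
      have h := this.tendsto 0
      simpa using h
    exact h3.eventually h2
  have hSpos : ∀ u, 0 < ∑ i, Real.exp (L i u) := fun u =>
    Finset.sum_pos (fun i _ => Real.exp_pos _) Finset.univ_nonempty
  -- derivative of the function along the line
  have hF : ContDiffAt ℝ 2 (fun u => Real.log (∑ i, Real.exp (L i u))) z := by
    refine ContDiffAt.log ?_ (hSpos z).ne'
    exact ContDiffAt.sum fun i _ => (hL i).exp
  have hd1 : ∀ᶠ s : ℝ in 𝓝 0, fderiv ℝ (fun u => Real.log (∑ i, Real.exp (L i u))) (z + s • x) x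
      = (∑ i, Real.exp (L i (z + s • x)) * fderiv ℝ (L i) (z + s • x) x)
        / (∑ i, Real.exp (L i (z + s • x))) := by
    filter_upwards [hev] with s hs'
    have h1 : HasDerivAt (fun s : ℝ => Real.log (∑ i, Real.exp (L i (z + s • x))))
        ((∑ i, Real.exp (L i (z + s • x)) * fderiv ℝ (L i) (z + s • x) x)
        / (∑ i, Real.exp (L i (z + s • x)))) s := by
      refine HasDerivAt.log ?_ (hSpos _).ne'
      refine HasDerivAt.fun_sum fun i _ => ?_
      exact (KB_line0 (hs' i)).exp
    have h2 : DifferentiableAt ℝ (fun u => Real.log (∑ i, Real.exp (L i u))) (z + s • x) := by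
      refine DifferentiableAt.log ?_ (hSpos _).ne'
      exact DifferentiableAt.fun_sum fun i _ => (hs' i).exp
    exact (KB_line0 h2).unique h1
  have h1 := KB_line1 hF x x
  have h2 : HasDerivAt (fun s : ℝ => (∑ i, Real.exp (L i (z + s • x)) * fderiv ℝ (L i) (z + s • x) x)
        / (∑ i, Real.exp (L i (z + s • x))))
      (hs (fun u => Real.log (∑ i, Real.exp (L i u))) z x x) 0 :=
    h1.congr_of_eventuallyEq (hd1.mono fun s h => h.symm)
  have hE : ∀ i, HasDerivAt (fun s : ℝ => Real.exp (L i (z + s • x)))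
      (Real.exp (L i z) * fderiv ℝ (L i) z x) 0 := fun i => by
    have := (KB_line0 (f := L i) (z := z) (x := x) (s := 0)
      (by simpa using (hL i).differentiableAt (by norm_num))).exp
    simpa using this
  have h3 : HasDerivAt (fun s : ℝ => ∑ i, Real.exp (L i (z + s • x)))
      (∑ i, Real.exp (L i z) * fderiv ℝ (L i) z x) 0 := HasDerivAt.fun_sum fun i _ => hE i
  have h4 : HasDerivAt (fun s : ℝ => ∑ i, Real.exp (L i (z + s • x)) * fderiv ℝ (L i) (z + s • x) x)
      (∑ i, (Real.exp (L i z) * fderiv ℝ (L i) z x * fderiv ℝ (L i) z x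
        + Real.exp (L i z) * hs (L i) z x x)) 0 := by
    refine HasDerivAt.fun_sum fun i _ => ?_
    have := (hE i).fun_mul (KB_line1 (hL i) x x)
    simpa using this
  have h5 := h4.div h3 (by simpa using (hSpos z).ne')
  have h6 := h2.unique h5
  rw [h6]
  simp only [zero_smul, add_zero]
  set S := ∑ i, Real.exp (L i z) with hS
  have hS0 : S ≠ 0 := (hSpos z).ne'
  have hdbl : (∑ i, ∑ j, Real.exp (L i z) * Real.exp (L j z)
          * (fderiv ℝ (L i) z x - fderiv ℝ (L j) z x) ^ 2)
      = 2 * S * (∑ i, Real.exp (L i z) * fderiv ℝ (L i) z x * fderiv ℝ (L i) z x)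
        - 2 * (∑ i, Real.exp (L i z) * fderiv ℝ (L i) z x) ^ 2 := by
    have e1 : ∀ i j, Real.exp (L i z) * Real.exp (L j z)
          * (fderiv ℝ (L i) z x - fderiv ℝ (L j) z x) ^ 2
        = (Real.exp (L i z) * fderiv ℝ (L i) z x * fderiv ℝ (L i) z x) * Real.exp (L j z)
          + Real.exp (L i z) * (Real.exp (L j z) * fderiv ℝ (L j) z x * fderiv ℝ (L j) z x)
          - 2 * ((Real.exp (L i z) * fderiv ℝ (L i) z x) * (Real.exp (L j z) * fderiv ℝ (L j) z x)) :=
      fun i j => by ring
    simp only [e1, Finset.sum_sub_distrib, Finset.sum_add_distrib, ← Finset.mul_sum,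
      ← Finset.sum_mul]
    rw [← hS]; ring
  rw [hdbl, Finset.sum_add_distrib]
  field_simp
  ring

end Pool.Agent.helper73.AD
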