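import Pool.Agent.helper73.AD.Basic

/-!
KY: the key lemma (project ad).
-/

namespace Pool.Agent.helper73.AD

open scoped BigOperators Topology
open MeasureTheory Set Filter

variable {J K : Type} [Fintype J] [DecidableEq J] [Fintype K] [DecidableEq K]

theorem KY_cont_hs (S : Sys J K) (k : K) {z x y : ℝ → PS J} (hz : Continuous z)
    (hzc : ∀ u, z u ∈ Cone J) (hx : Continuous x) (hy : Continuous y) :
    Continuous (fun u => hs (S.H k) (z u) (x u) (y u)) := by
  have h2 : Continuous (fun u => fderiv ℝ (fun w => fderiv ℝ (S.H k) w) (z u)) := by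
    rw [continuous_iff_continuousAt]
    intro u
    have h := contDiffAt_H S k (hzc u)
    have h1 : ContDiffAt ℝ 1 (fun w => fderiv ℝ (S.H k) w) (z u) :=
      h.fderiv_right (m := 1) (by norm_num)
    have h0 : ContDiffAt ℝ 0 (fun w => fderiv ℝ (fun w => fderiv ℝ (S.H k) w) w) (z u) :=
      h1.fderiv_right (m := 0) (by norm_num)
    exact ContinuousAt.comp (f := z) (g := fun w => fderiv ℝ (fun w => fderiv ℝ (S.H k) w) w)
      h0.continuousAt hz.continuousAt
  unfold hs
  exact (h2.clm_apply hx).clm_apply hy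

theorem KY_cont_hv (S : Sys J K) (v : K → ℝ) {z x y : ℝ → PS J} (hz : Continuous z)
    (hzc : ∀ u, z u ∈ Cone J) (hx : Continuous x) (hy : Continuous y) :
    Continuous (fun u => S.hv v (z u) (x u) (y u)) := by
  unfold Sys.hv
  exact continuous_finsetSum _ fun k _ => (KY_cont_hs S k hz hzc hx hy).const_mul _ 

theorem KY_cont_rot (S : Sys J K) (v : K → ℝ) {z x : ℝ → PS J} (hz : Continuous z)
    (hzc : ∀ u, z u ∈ Cone J) (hx : Continuous x) :
    Continuous (fun u => S.rot v (z u) (x u)) := by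
  unfold Sys.rot
  refine Continuous.prodMk (continuous_pi fun j => ?_) (continuous_pi fun j => ?_)
  · exact (KY_cont_hv S v hz hzc hx continuous_const).neg
  · exact KY_cont_hv S v hz hzc hx continuous_const

theorem KY_integrable {E : Type*} [NormedAddCommGroup E] {f : ℝ → E} (hf : Continuous f)
    {B a : ℝ} (h : ∀ u, a ≤ u → ‖f u‖ ≤ B * Real.exp (-u)) : IntegrableOn f (Ioi a) := by
  refine Integrable.mono' ((integrableOn_exp_neg_Ioi a).const_mul B)
    hf.aestronglyMeasurable.restrict ?_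
  exact (ae_restrict_iff' measurableSet_Ioi).mpr (ae_of_all _ fun u hu => h u (le_of_lt hu))

theorem KY_amgm {x a b : ℝ} (hx : 0 ≤ x) (ha : 0 ≤ a) (hb : 0 ≤ b)
    (h : ∀ l : ℝ, 0 < l → x ≤ (l * a + b / l) / 2) : x ^ 2 ≤ a * b := by
  have h1 : ∀ t : ℝ, 0 ≤ a * (t * t) + (-2 * x) * t + b := by
    intro t
    rcases le_or_gt t 0 with ht | ht
    · have h2 : 0 ≤ x * (-t) := mul_nonneg hx (by linarith)
      nlinarith [mul_nonneg ha (mul_self_nonneg t)]
    · have h2 : x * t ≤ (t * a + b / t) / 2 * t := mul_le_mul_of_nonneg_right (h t ht) ht.le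
      have h3 : (t * a + b / t) / 2 * t = (a * (t * t) + b) / 2 := by field_simp
      rw [h3] at h2
      nlinarith
  have hd := discrim_le_zero h1
  unfold discrim at hd
  nlinarith

theorem KY_sqrt_amgm {a b l : ℝ} (ha : 0 ≤ a) (hb : 0 ≤ b) (hl : 0 < l) :
    Real.sqrt (a * b) ≤ (l * a + b / l) / 2 := by
  rw [Real.sqrt_le_iff]
  have h1 : 0 ≤ b / l := div_nonneg hb hl.le
  have h2 : 0 ≤ l * a := mul_nonneg hl.le ha
  refine ⟨by positivity, ?_⟩
  have h3 : a * b = (l * a) * (b / l) := by field_simp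
  rw [h3]
  nlinarith [sq_nonneg (l * a - b / l)]

theorem KY_of (hDR : DR_stmt) (hKA : KA_stmt) : KY_stmt := by
  intro J K _ _ _ _ S Φ
  set c : ℝ := (Fintype.card K : ℝ) * Φ.C with hc
  have hC := Φ.C_pos
  have hc0 : 0 ≤ c := by positivity
  refine ⟨c + 1, by positivity, ?_⟩
  intro ε hε s R T v hR hT hv
  have hce : ∀ t : ℝ, 0 ≤ c * Real.exp t := fun t => mul_nonneg hc0 (Real.exp_pos t).le
  have hεε : ε * ε = 1 := by rcases hε with rfl | rfl <;> norm_num
  have hεabs : |ε| = 1 := by rcases hε with rfl | rfl <;> norm_num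
  set χ : K → ℝ := fun k => if k ∈ s then 1 else 0 with hχ
  set κ : K → ℝ := fun k => if k ∈ s then ε else 0 with hκ
  have hχ0 : ∀ k, 0 ≤ χ k := fun k => by simp only [hχ]; split_ifs <;> norm_num
  have hκχ : ∀ (z x y : PS J), S.hv κ z x y = ε * S.hv χ z x y := by
    intro z x y
    unfold Sys.hv
    rw [Finset.mul_sum]
    refine Finset.sum_congr rfl fun k _ => ?_
    simp only [hχ, hκ]; split_ifs <;> ring
  have hZc : Continuous Φ.Z := continuous_iff_continuousAt.mpr fun T => (Φ.dZ T).continuousAt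
  have hline : Continuous (fun u : ℝ => T + u • κ) := by fun_prop
  set Zu : ℝ → PS J := fun u => Φ.Z (T + u • κ) with hZu
  have hZuc : Continuous Zu := hZc.comp hline
  have hZm : ∀ u, Zu u ∈ Cone J := fun u => Φ.mem _
  set X : ℝ → PS J := fun u => S.Xv v (Zu u) with hX
  have hXd : ∀ u, HasDerivAt X (S.rot κ (Zu u) (X u)) u := fun u => hDR J K S Φ v κ T u
  have hXc : Continuous X := continuous_iff_continuousAt.mpr fun u => (hXd u).continuousAt
  -- parameters along the ray
  have hpar : ∀ u, 0 ≤ u → ∀ k ∈ s, R + u ≤ ε * (T + u • κ) k := by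
    intro u hu k hk
    have h1 := hT k hk
    simp only [Pi.add_apply, Pi.smul_apply, smul_eq_mul, hκ, hk, if_true]
    have : ε * (T k + u * ε) = ε * T k + u * (ε * ε) := by ring
    rw [this, hεε]; linarith
  have habs : ∀ u, 0 ≤ u → ∀ k ∈ s, R + u ≤ |(T + u • κ) k| := by
    intro u hu k hk
    have h1 := hpar u hu k hk
    have h2 : ε * (T + u • κ) k ≤ |ε * (T + u • κ) k| := le_abs_self _
    rw [abs_mul, hεabs, one_mul] at h2
    linarith
  -- bound of the Hessian
  have hb : ∀ u, 0 ≤ u → ∀ x y : PS J,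
      |S.hv χ (Zu u) x y| ≤ c * Real.exp (-(R + u)) * ‖x‖ * ‖y‖ := by
    intro u hu x y
    unfold Sys.hv
    refine (Finset.abs_sum_le_sum_abs _ _).trans ?_
    have h1 : ∀ k ∈ (Finset.univ : Finset K), |χ k * hs (S.H k) (Zu u) x y|
        ≤ Φ.C * Real.exp (-(R + u)) * ‖x‖ * ‖y‖ := by
      intro k _
      by_cases hk : k ∈ s
      · simp only [hχ, hk, if_true, one_mul]
        refine (Φ.hb _ k x y).trans ?_
        have h2 : Real.exp (-|(T + u • κ) k|) ≤ Real.exp (-(R + u)) :=
          Real.exp_le_exp.mpr (by linarith [habs u hu k hk])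
        gcongr
      · simp only [hχ, hk, if_false, zero_mul, abs_zero]
        positivity
    refine (Finset.sum_le_sum h1).trans ?_
    rw [Finset.sum_const, Finset.card_univ, nsmul_eq_mul, hc]
    apply le_of_eq; ring
  have hpsd : ∀ u, ∀ x : PS J, 0 ≤ S.hv χ (Zu u) x x := fun u x => by
    unfold Sys.hv
    exact Finset.sum_nonneg fun k _ => mul_nonneg (hχ0 k) (S.psd k _ (hZm u) x)
  -- approach of the limit
  set M0 : ℝ := (∑ k, |v k|) * Φ.C with hM0
  have hM0n : 0 ≤ M0 := by
    rw [hM0]; exact mul_nonneg (Finset.sum_nonneg fun k _ => abs_nonneg _) hC.le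
  have hlim0 : ∀ u, 0 ≤ u → ‖X u - ε • S.ev v‖ ≤ M0 * Real.exp (-u) := by
    intro u hu
    have h1 : X u - ε • S.ev v = ∑ k, v k • (S.X k (Zu u) - ε • S.e k) := by
      simp only [hX, Sys.Xv, Sys.ev, Finset.smul_sum, smul_sub, Finset.sum_sub_distrib]
      congr 1
      exact Finset.sum_congr rfl fun k _ => smul_comm _ _ _
    rw [h1]
    refine (norm_sum_le _ _).trans ?_
    rw [hM0, Finset.sum_mul, Finset.sum_mul]
    refine Finset.sum_le_sum fun k _ => ?_
    rw [norm_smul, Real.norm_eq_abs]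
    by_cases hk : k ∈ s
    · have h2 : ‖S.X k (Zu u) - ε • S.e k‖ ≤ Φ.C * Real.exp (-u) := by
        have hp := hpar u hu k hk
        rcases hε with rfl | rfl
        · rw [one_smul]
          refine (Φ.ep _ k).trans ?_
          have : Real.exp (-(T + u • κ) k) ≤ Real.exp (-u) := Real.exp_le_exp.mpr (by linarith)
          exact mul_le_mul_of_nonneg_left this hC.le
        · rw [neg_smul, one_smul, sub_neg_eq_add]
          refine (Φ.em _ k).trans ?_
          have : Real.exp ((T + u • κ) k) ≤ Real.exp (-u) := Real.exp_le_exp.mpr (by linarith)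
          exact mul_le_mul_of_nonneg_left this hC.le
      calc |v k| * ‖S.X k (Zu u) - ε • S.e k‖ ≤ |v k| * (Φ.C * Real.exp (-u)) := by gcongr
        _ = |v k| * Φ.C * Real.exp (-u) := by ring
    · rw [hv k hk]; simp
  have hexp0 : Tendsto (fun u : ℝ => Real.exp (-u)) atTop (𝓝 0) :=
    Real.tendsto_exp_atBot.comp tendsto_neg_atTop_atBot
  have hlim : Tendsto X atTop (𝓝 (ε • S.ev v)) := by
    rw [tendsto_iff_norm_sub_tendsto_zero]
    have h2 : Tendsto (fun u : ℝ => M0 * Real.exp (-u)) atTop (𝓝 0) := by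
      simpa using hexp0.const_mul M0
    refine squeeze_zero' (Eventually.of_forall fun u => norm_nonneg _) ?_ h2
    filter_upwards [eventually_ge_atTop (0 : ℝ)] with u hu using hlim0 u hu
  set M : ℝ := M0 + ‖S.ev v‖ with hM
  have hMn : 0 ≤ M := add_nonneg hM0n (norm_nonneg _)
  have hXb : ∀ u, 0 ≤ u → ‖X u‖ ≤ M := by
    intro u hu
    have h1 := hlim0 u hu
    have h2 : Real.exp (-u) ≤ 1 := Real.exp_le_one_iff.mpr (by linarith)
    have h3 : ‖X u‖ ≤ ‖X u - ε • S.ev v‖ + ‖ε • S.ev v‖ := by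
      have := norm_add_le (X u - ε • S.ev v) (ε • S.ev v)
      simpa using this
    rw [norm_smul, Real.norm_eq_abs, hεabs, one_mul] at h3
    have h4 := mul_le_mul_of_nonneg_left h2 hM0n
    rw [hM]; linarith
  -- the function g
  set g : ℝ → ℝ := fun u => S.hv χ (Zu u) (X u) (X u) with hg
  have hgc : Continuous g := KY_cont_hv S χ hZuc hZm hXc hXc
  have hg0 : ∀ u, 0 ≤ g u := fun u => hpsd u _
  have heRu : ∀ u, Real.exp (-(R + u)) = Real.exp (-R) * Real.exp (-u) := fun u => by
    rw [← Real.exp_add]; ring_nf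
  have heR : Real.exp (-R) ≤ 1 := Real.exp_le_one_iff.mpr (by linarith)
  have hgb : ∀ u, 0 ≤ u → ‖g u‖ ≤ (c * M * M) * Real.exp (-u) := by
    intro u hu
    rw [Real.norm_eq_abs]
    refine (hb u hu _ _).trans ?_
    have h1 : Real.exp (-(R + u)) ≤ Real.exp (-u) := Real.exp_le_exp.mpr (by linarith)
    have h2 := hXb u hu
    calc c * Real.exp (-(R + u)) * ‖X u‖ * ‖X u‖ ≤ c * Real.exp (-u) * M * M := by gcongr
      _ = (c * M * M) * Real.exp (-u) := by ring
  have hgi : ∀ a, 0 ≤ a → IntegrableOn g (Ioi a) := fun a ha =>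
    KY_integrable hgc fun u hu => hgb u (ha.trans hu)
  set I : ℝ := ∫ u in Ioi (0 : ℝ), g u with hI
  have hI0 : 0 ≤ I := setIntegral_nonneg measurableSet_Ioi fun u _ => hg0 u
  have hIu : ∀ a, 0 ≤ a → ∫ u in Ioi a, g u ≤ I := by
    intro a ha
    refine setIntegral_mono_set (hgi 0 le_rfl) (ae_of_all _ fun u => hg0 u) ?_
    exact (Ioi_subset_Ioi ha).eventuallyLE
  -- bound of the derivative
  have hX'c : Continuous (fun u => S.rot κ (Zu u) (X u)) := KY_cont_rot S κ hZuc hZm hXc
  have hX'b : ∀ u, 0 ≤ u → ‖S.rot κ (Zu u) (X u)‖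
      ≤ Real.sqrt (g u * (c * Real.exp (-(R + u)))) := by
    intro u hu
    refine norm_le_of_om _ _ (Real.sqrt_nonneg _) fun y hy => ?_
    rw [om_rot, hκχ, abs_mul, hεabs, one_mul]
    refine Real.abs_le_sqrt ?_
    refine (hv_cauchy S χ hχ0 (hZm u) (X u) y).trans ?_
    have h1 : S.hv χ (Zu u) y y ≤ c * Real.exp (-(R + u)) := by
      refine (le_abs_self _).trans ((hb u hu y y).trans ?_)
      have h3 : 0 ≤ c * Real.exp (-(R + u)) := hce _
      calc c * Real.exp (-(R + u)) * ‖y‖ * ‖y‖ ≤ c * Real.exp (-(R + u)) * 1 * 1 := by gcongr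
        _ = c * Real.exp (-(R + u)) := by ring
    exact mul_le_mul_of_nonneg_left h1 (hg0 u)
  have hX'b2 : ∀ u, 0 ≤ u → ‖S.rot κ (Zu u) (X u)‖ ≤ (c * M) * Real.exp (-u) := by
    intro u hu
    refine norm_le_of_om _ _ (mul_nonneg (mul_nonneg hc0 hMn) (Real.exp_pos _).le) fun y hy => ?_
    rw [om_rot, hκχ, abs_mul, hεabs, one_mul]
    refine (hb u hu (X u) y).trans ?_
    have h1 : Real.exp (-(R + u)) ≤ Real.exp (-u) := Real.exp_le_exp.mpr (by linarith)
    have h2 := hXb u hu
    calc c * Real.exp (-(R + u)) * ‖X u‖ * ‖y‖ ≤ c * Real.exp (-u) * M * 1 := by gcongr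
      _ = (c * M) * Real.exp (-u) := by ring
  have hX'i : ∀ a, 0 ≤ a → IntegrableOn (fun u => S.rot κ (Zu u) (X u)) (Ioi a) := fun a ha =>
    KY_integrable hX'c fun u hu => hX'b2 u (ha.trans hu)
  -- bound of E
  have hE : ∀ u, 0 ≤ u → ‖X u - ε • S.ev v‖ ^ 2 ≤ I * (c * Real.exp (-(R + u))) := by
    intro a ha
    refine KY_amgm (norm_nonneg _) hI0 (hce _) fun l hl => ?_
    have h1 : ∫ u in Ioi a, S.rot κ (Zu u) (X u) = ε • S.ev v - X a :=
      integral_Ioi_of_hasDerivAt_of_tendsto (hXc.continuousWithinAt) (fun u _ => hXd u)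
        (hX'i a ha) hlim
    have h2 : ‖X a - ε • S.ev v‖ ≤ ∫ u in Ioi a, ‖S.rot κ (Zu u) (X u)‖ := by
      rw [norm_sub_rev, ← h1]
      exact norm_integral_le_integral_norm _
    refine h2.trans ?_
    have hexpi : IntegrableOn (fun u : ℝ => c * Real.exp (-(R + u))) (Ioi a) := by
      have : IntegrableOn (fun u : ℝ => (c * Real.exp (-R)) * Real.exp (-u)) (Ioi a) :=
        (integrableOn_exp_neg_Ioi a).const_mul _
      refine this.congr_fun (fun u _ => ?_) measurableSet_Ioi
      simp only [heRu]; ring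
    have hexpv : ∫ u in Ioi a, c * Real.exp (-(R + u)) = c * Real.exp (-(R + a)) := by
      have h3 : ∀ u : ℝ, c * Real.exp (-(R + u)) = (c * Real.exp (-R)) * Real.exp (-u) := fun u => by
        rw [heRu]; ring
      simp only [h3]
      rw [integral_const_mul, integral_exp_neg_Ioi]
    have h4 : ∫ u in Ioi a, ‖S.rot κ (Zu u) (X u)‖
        ≤ ∫ u in Ioi a, ((l / 2) * g u + (1 / (2 * l)) * (c * Real.exp (-(R + u)))) := by
      refine setIntegral_mono_on (hX'i a ha).norm
        (((hgi a ha).const_mul _).add (hexpi.const_mul _)) measurableSet_Ioi fun u hu => ?_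
      have hu0 : 0 ≤ u := ha.trans (le_of_lt hu)
      refine (hX'b u hu0).trans ?_
      refine (KY_sqrt_amgm (hg0 u) (hce _) hl).trans (le_of_eq ?_)
      field_simp
    refine h4.trans ?_
    rw [integral_add ((hgi a ha).const_mul _) (hexpi.const_mul _), integral_const_mul,
      integral_const_mul, hexpv]
    have h5 := hIu a ha
    have h6 : (l / 2) * ∫ u in Ioi a, g u ≤ (l / 2) * I :=
      mul_le_mul_of_nonneg_left h5 (half_pos hl).le
    have h7 : (l * I + c * Real.exp (-(R + a)) / l) / 2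
        = (l / 2) * I + (1 / (2 * l)) * (c * Real.exp (-(R + a))) := by field_simp
    rw [h7]; linarith
  have hX0 : X 0 = S.Xv v (Φ.Z T) := by simp [hX, hZu]
  refine ⟨I, hI0, ?_, ?_, ?_⟩
  · -- positivity
    intro hv0
    by_contra hneg
    have hIz : I = 0 := le_antisymm (not_lt.mp hneg) hI0
    apply hv0
    refine hKA J K S Φ ε hε s T v hv ?_
    intro u0 hu0
    by_contra hne
    have hpos : 0 < g u0 := lt_of_le_of_ne (hg0 u0) (Ne.symm hne)
    have hsupp : IsOpen (Function.support g) := hgc.isOpen_support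
    have hmem : u0 ∈ Function.support g := hpos.ne'
    have h1 : 0 < volume (Function.support g ∩ Ioi (0 : ℝ)) := by
      refine (hsupp.inter isOpen_Ioi).measure_pos volume ?_
      obtain ⟨δ, hδ, hball⟩ := Metric.isOpen_iff.mp hsupp u0 hmem
      refine ⟨u0 + δ / 2, hball ?_, ?_⟩
      · rw [Metric.mem_ball, Real.dist_eq]
        have : u0 + δ / 2 - u0 = δ / 2 := by ring
        rw [this, abs_of_pos (by linarith)]; linarith
      · show 0 < u0 + δ / 2
        linarith
    have h2 := (setIntegral_pos_iff_support_of_nonneg_ae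
      (ae_of_all _ fun u => hg0 u) (hgi 0 le_rfl)).mpr h1
    rw [← hI, hIz] at h2
    exact lt_irrefl _ h2
  · -- first estimate
    have h1 := hE 0 le_rfl
    rw [hX0] at h1
    rw [← pow_le_pow_iff_left₀ (norm_nonneg _) (mul_nonneg (mul_nonneg (by linarith)
      (Real.exp_pos _).le) (Real.sqrt_nonneg _)) two_ne_zero]
    refine h1.trans ?_
    have h2 : Real.exp (-(R + 0)) = Real.exp (-R / 2) ^ 2 := by
      rw [← Real.exp_nat_mul]; ring_nf
    rw [h2, mul_pow, mul_pow, Real.sq_sqrt hI0]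
    have h3 : c ≤ (c + 1) ^ 2 := by nlinarith
    have h4 : 0 ≤ I * Real.exp (-R / 2) ^ 2 := mul_nonneg hI0 (sq_nonneg _)
    have h5 := mul_le_mul_of_nonneg_right h3 h4
    have h6 : I * (c * Real.exp (-R / 2) ^ 2) = c * (I * Real.exp (-R / 2) ^ 2) := by ring
    have h7 : (c + 1) ^ 2 * Real.exp (-R / 2) ^ 2 * I
        = (c + 1) ^ 2 * (I * Real.exp (-R / 2) ^ 2) := by ring
    rw [h6, h7]; exact h5
  · -- second estimate
    set E : ℝ → PS J := fun u => X u - ε • S.ev v with hEdef
    have hEc : Continuous E := hXc.sub continuous_const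
    set q : ℝ → ℝ := fun u => S.hv χ (Zu u) (X u) (E u) with hq
    have hqc : Continuous q := KY_cont_hv S χ hZuc hZm hXc hEc
    have hqb : ∀ u, 0 ≤ u → |q u| ≤ (c * Real.exp (-R)) * ((g u + Real.exp (-u) * I) / 2) := by
      intro u hu
      have h1 : q u ^ 2 ≤ g u * S.hv χ (Zu u) (E u) (E u) :=
        hv_cauchy S χ hχ0 (hZm u) (X u) (E u)
      have h2 : S.hv χ (Zu u) (E u) (E u) ≤ c * Real.exp (-(R + u)) * (I * (c * Real.exp (-(R + u)))) := by
        refine (le_abs_self _).trans ((hb u hu (E u) (E u)).trans ?_)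
        have h3 := hE u hu
        have h4 : c * Real.exp (-(R + u)) * ‖E u‖ * ‖E u‖ = c * Real.exp (-(R + u)) * ‖E u‖ ^ 2 := by
          ring
        rw [h4]
        exact mul_le_mul_of_nonneg_left h3 (hce _)
      have h5 : q u ^ 2 ≤ ((c * Real.exp (-R)) * ((g u + Real.exp (-u) * I) / 2)) ^ 2 := by
        refine h1.trans ((mul_le_mul_of_nonneg_left h2 (hg0 u)).trans ?_)
        rw [heRu]
        have he : Real.exp (-u) ≤ 1 := Real.exp_le_one_iff.mpr (by linarith)
        have he0 : 0 < Real.exp (-u) := Real.exp_pos _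
        have hid : g u * (c * (Real.exp (-R) * Real.exp (-u)) * (I * (c * (Real.exp (-R) * Real.exp (-u)))))
            = (c * Real.exp (-R)) ^ 2 * (g u * I * Real.exp (-u) ^ 2) := by ring
        rw [hid, mul_pow (c * Real.exp (-R)) ((g u + Real.exp (-u) * I) / 2) 2]
        refine mul_le_mul_of_nonneg_left ?_ (sq_nonneg (c * Real.exp (-R)))
        have h6 : g u * I * Real.exp (-u) ^ 2 ≤ g u * (Real.exp (-u) * I) := by
          have h7 : 0 ≤ g u * I * Real.exp (-u) := mul_nonneg (mul_nonneg (hg0 u) hI0) he0.le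
          have h13 := mul_le_mul_of_nonneg_left he h7
          have h14 : g u * I * Real.exp (-u) ^ 2 = g u * I * Real.exp (-u) * Real.exp (-u) := by ring
          have h15 : g u * (Real.exp (-u) * I) = g u * I * Real.exp (-u) * 1 := by ring
          rw [h14, h15]; exact h13
        have h11 : ((g u + Real.exp (-u) * I) / 2) ^ 2 - g u * (Real.exp (-u) * I)
            = ((g u - Real.exp (-u) * I) / 2) ^ 2 := by ring
        have h12 := sq_nonneg ((g u - Real.exp (-u) * I) / 2)
        linarith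
      have h8 : 0 ≤ (c * Real.exp (-R)) * ((g u + Real.exp (-u) * I) / 2) := by
        have h6 := hg0 u
        have h7 : 0 ≤ Real.exp (-u) * I := mul_nonneg (Real.exp_pos _).le hI0
        exact mul_nonneg (hce _) (by linarith)
      exact abs_le_of_sq_le_sq h5 h8
    have hqi : IntegrableOn q (Ioi 0) := by
      refine KY_integrable hqc (B := c * M * M0) fun u hu => ?_
      rw [Real.norm_eq_abs]
      refine (hb u hu _ _).trans ?_
      have h1 : Real.exp (-(R + u)) ≤ Real.exp (-u) := Real.exp_le_exp.mpr (by linarith)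
      have h2 := hXb u hu
      have h3 : ‖E u‖ ≤ M0 := by
        refine (hlim0 u hu).trans ?_
        have : Real.exp (-u) ≤ 1 := Real.exp_le_one_iff.mpr (by linarith)
        have h4 := mul_le_mul_of_nonneg_left this hM0n
        linarith
      calc c * Real.exp (-(R + u)) * ‖X u‖ * ‖E u‖ ≤ c * Real.exp (-u) * M * M0 := by gcongr
        _ = (c * M * M0) * Real.exp (-u) := by ring
    have hD : ∀ u, HasDerivAt (fun u => om (X u) (S.ev v)) (g u - q u) u := by
      intro u
      have h1 := (omL (S.ev v)).hasFDerivAt.comp_hasDerivAt u (hXd u)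
      have h2 := h1.neg
      have e1 : ∀ x : PS J, om x (S.ev v) = -(omL (S.ev v) x) := fun x => by
        rw [omL_apply]; exact om_anti _ _
      have h3 : -(omL (S.ev v) (S.rot κ (Zu u) (X u))) = g u - q u := by
        rw [← e1, om_rot, hκχ]
        have e2 : q u = g u - ε * S.hv χ (Zu u) (X u) (S.ev v) := by
          simp only [hq, hg, hEdef, Sys.hv, Finset.mul_sum, ← Finset.sum_sub_distrib]
          refine Finset.sum_congr rfl fun k _ => ?_
          rw [sub_eq_add_neg, hs_add_right, ← neg_smul, hs_smul_right]; ring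
        rw [e2]; ring
      rw [← h3]
      refine h2.congr_of_eventuallyEq (Eventually.of_forall fun w => ?_)
      simp only [e1]; rfl
    have hDlim : Tendsto (fun u => om (X u) (S.ev v)) atTop (𝓝 0) := by
      have h1 : Tendsto (fun u => omL (S.ev v) (X u)) atTop (𝓝 (omL (S.ev v) (ε • S.ev v))) :=
        ((omL (S.ev v)).continuous.tendsto _).comp hlim
      have h2 : omL (S.ev v) (ε • S.ev v) = 0 := by
        rw [omL_apply, om_smul_right, om_self, mul_zero]
      rw [h2] at h1
      have h3 := h1.neg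
      rw [neg_zero] at h3
      refine h3.congr fun u => ?_
      rw [omL_apply]; exact (om_anti _ _).symm
    have hint : ∫ u in Ioi (0 : ℝ), (g u - q u) = 0 - om (X 0) (S.ev v) :=
      integral_Ioi_of_hasDerivAt_of_tendsto
        ((hD 0).continuousAt.continuousWithinAt) (fun u _ => hD u)
        ((hgi 0 le_rfl).sub hqi) hDlim
    rw [integral_sub (hgi 0 le_rfl) hqi, ← hI, hX0] at hint
    have hqint : ∫ u in Ioi (0 : ℝ), q u ≤ (c * Real.exp (-R)) * I := by
      have hri : IntegrableOn (fun u : ℝ => (c * Real.exp (-R)) * ((g u + Real.exp (-u) * I) / 2))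
          (Ioi 0) :=
        ((((hgi 0 le_rfl).add ((integrableOn_exp_neg_Ioi 0).mul_const I)).div_const 2)).const_mul _
      have h1 : ∫ u in Ioi (0 : ℝ), q u
          ≤ ∫ u in Ioi (0 : ℝ), (c * Real.exp (-R)) * ((g u + Real.exp (-u) * I) / 2) :=
        setIntegral_mono_on hqi hri measurableSet_Ioi fun u hu =>
          (le_abs_self (q u)).trans (hqb u (show (0 : ℝ) < u from hu).le)
      refine h1.trans (le_of_eq ?_)
      rw [integral_const_mul, integral_div, integral_add (hgi 0 le_rfl)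
        ((integrableOn_exp_neg_Ioi 0).mul_const I), integral_mul_const, integral_exp_neg_Ioi_zero,
        ← hI]
      ring
    have hRpos : 0 < Real.exp (-R) := Real.exp_pos _
    have h9 : 0 ≤ Real.exp (-R) * I := mul_nonneg hRpos.le hI0
    have h10 : -(1 - (c + 1) * Real.exp (-R)) * I = -I + c * Real.exp (-R) * I
        + Real.exp (-R) * I := by ring
    rw [h10]; linarith

end Pool.Agent.helper73.AD
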